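import Pool.Agent.helper11.RPQ.SpecG
import Pool.Agent.helper62.QU.All

set_option autoImplicit false

/-!
# RPQ, row GRW: growth of the number of lattice points
-/

open scoped MatrixGroups ContDiff Topology UpperHalfPlane ComplexConjugate Pointwise
open UpperHalfPlane MeasureTheory Filter Set

namespace Pool.Agent.RPQ

open Pool.Agent.RS
open Pool.Agent.MS (BA BB st pf gk Dk amk)

/-- the area of a ball is at most `C e^R` -/
theorem GRW_ball : ∃ C : ℝ, 0 < C ∧ ∀ (z : ℍ) (R : ℝ), 0 ≤ R → volume.real (Metric.ball z R) ≤ C * Real.exp R := by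
  obtain ⟨c₀, hc₀, hmas⟩ := QU.A_MAS
  obtain ⟨t1, t2, t3, t4, t5, t6, -, -⟩ := QU.A_TTT
  refine ⟨c₀, hc₀, fun z R hR => ?_⟩
  set T : ℝ := Real.cosh R - 1 with hT
  have hT0 : 0 ≤ T := by
    have := Real.one_le_cosh R
    linarith
  let κ : ℝ → ℝ := fun t => Real.smoothTransition (T + 1 - t)
  have k1 : ContDiff ℝ ∞ κ := Real.smoothTransition.contDiff.comp (contDiff_const.sub contDiff_id)
  have k2 : ∀ t, T + 1 ≤ t → κ t = 0 := fun t ht => Real.smoothTransition.zero_of_nonpos (by linarith)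
  have k3 : ∀ t, t ≤ T → κ t = 1 := fun t ht => Real.smoothTransition.one_of_one_le (by linarith)
  have k0 : ∀ t, 0 ≤ κ t := fun t => Real.smoothTransition.nonneg _
  have k4 : ∀ t, κ t ≤ 1 := fun t => Real.smoothTransition.le_one _
  have h1 := hmas κ (T + 1) k1 (by linarith) k2 z
  have h2 : ∫ t in (0 : ℝ)..(T + 1), κ t ≤ T + 1 := by
    have := intervalIntegral.norm_integral_le_of_norm_le_const (a := (0 : ℝ)) (b := T + 1) (f := κ) (C := 1)
      (fun t _ => by rw [Real.norm_of_nonneg (k0 t)]; exact k4 t)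
    rw [sub_zero, abs_of_nonneg (by linarith : (0 : ℝ) ≤ T + 1), one_mul] at this
    exact (Real.le_norm_self _).trans this
  have hcont : Continuous fun w : ℍ => κ (QU.tt z w) := k1.continuous.comp (t5.comp (by fun_prop : Continuous fun w : ℍ => (z, w)))
  obtain ⟨R', hR', hR2⟩ := t6 (T + 1)
  have hcs : HasCompactSupport fun w : ℍ => κ (QU.tt z w) := by
    refine HasCompactSupport.intro (isCompact_closedBall z R') fun w hw => ?_
    refine k2 _ ?_
    by_contra h
    push Not at h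
    refine hw ?_
    rw [Metric.mem_closedBall, dist_comm]
    exact hR2 z w h.le
  have hint : Integrable (fun w : ℍ => κ (QU.tt z w)) (volume : Measure ℍ) := hcont.integrable_of_hasCompactSupport hcs
  have hfin : (volume : Measure ℍ) (Metric.ball z R) < ⊤ :=
    (measure_mono Metric.ball_subset_closedBall).trans_lt (isCompact_closedBall z R).measure_lt_top
  have h3 : volume.real (Metric.ball z R) ≤ ∫ w : ℍ, κ (QU.tt z w) := by
    have e : volume.real (Metric.ball z R) = ∫ w : ℍ, (Metric.ball z R).indicator (fun _ => (1 : ℝ)) w := by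
      rw [integral_indicator Metric.isOpen_ball.measurableSet, setIntegral_const, smul_eq_mul, mul_one]
    rw [e]
    refine integral_mono ?_ hint fun w => ?_
    · rw [integrable_indicator_iff Metric.isOpen_ball.measurableSet]
      exact integrableOn_const hfin.ne
    · by_cases hw : w ∈ Metric.ball z R
      · rw [indicator_of_mem hw]
        show 1 ≤ κ (QU.tt z w)
        rw [k3]
        rw [t1]
        rw [Metric.mem_ball, dist_comm] at hw
        have : Real.cosh (dist z w) ≤ Real.cosh R := Real.cosh_le_cosh.2 (by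
          rw [abs_of_nonneg dist_nonneg, abs_of_nonneg hR]
          exact hw.le)
        linarith
      · rw [indicator_of_notMem hw]
        exact k0 _
  have h4 : T + 1 ≤ Real.exp R := by
    rw [hT, sub_add_cancel, Real.cosh_eq]
    have : Real.exp (-R) ≤ Real.exp R := Real.exp_le_exp.2 (by linarith)
    linarith
  calc volume.real (Metric.ball z R) ≤ ∫ w : ℍ, κ (QU.tt z w) := h3
    _ = c₀ * ∫ t in (0 : ℝ)..(T + 1), κ t := h1
    _ ≤ c₀ * Real.exp R := mul_le_mul_of_nonneg_left (h2.trans h4) hc₀.le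

theorem GRW_proof (hINJ : INJ_stmt) : GRW_stmt := by
  classical
  intro Γ hΓ
  obtain ⟨⟨i0, hi0, hi1, hinj⟩, hcnt⟩ := hINJ Γ hΓ
  obtain ⟨C, hC, hball⟩ := GRW_ball
  obtain ⟨inv1, -, inv3, -, -⟩ := QU.A_INV
  have := inv1
  have := inv3
  obtain ⟨-, -, -, -, -, -, -, htr⟩ := QU.A_TTT
  set v0 : ℝ := volume.real (Metric.ball (UpperHalfPlane.I : ℍ) (i0 / 2)) with hv0
  have hfinb : ∀ (w : ℍ) (r : ℝ), (volume : Measure ℍ) (Metric.ball w r) < ⊤ := fun w r =>
    (measure_mono Metric.ball_subset_closedBall).trans_lt (isCompact_closedBall w r).measure_lt_top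
  have hv : ∀ w : ℍ, volume.real (Metric.ball w (i0 / 2)) = v0 := by
    intro w
    obtain ⟨g, hg⟩ := htr UpperHalfPlane.I w
    have : Metric.ball w (i0 / 2) = g • Metric.ball (UpperHalfPlane.I : ℍ) (i0 / 2) := by
      rw [Metric.smul_ball, hg]
    rw [hv0, this]
    unfold Measure.real
    rw [measure_smul]
  have hv0p : 0 < v0 := by
    rw [hv0]
    refine ENNReal.toReal_pos ?_ (hfinb _ _).ne
    exact (Metric.isOpen_ball.measure_pos _ ⟨_, Metric.mem_ball_self (by positivity)⟩).ne'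
  refine ⟨C * Real.exp 1 / v0, by positivity, fun D z w hD => ?_⟩
  obtain ⟨n, hn⟩ := hcnt D
  have hfin := (hn z w).1
  refine ⟨hfin, ?_⟩
  set S : Finset Γ := hfin.toFinset with hS
  have hSc : ({γ : Γ | dist z ((γ : SL(2, ℝ)) • w) ≤ D}.ncard : ℝ) = (S.card : ℝ) := by
    rw [hS, Set.ncard_eq_toFinset_card _ hfin]
  have hdisj : Set.PairwiseDisjoint (↑S : Set Γ) fun γ : Γ => Metric.ball ((γ : SL(2, ℝ)) • w) (i0 / 2) := by
    intro γ _ γ' _ hne
    refine Set.disjoint_left.2 fun u hu hu' => hne ?_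
    rw [Metric.mem_ball] at hu hu'
    have h1 : dist ((γ : SL(2, ℝ)) • w) ((γ' : SL(2, ℝ)) • w) < i0 := by
      have := dist_triangle_left ((γ : SL(2, ℝ)) • w) ((γ' : SL(2, ℝ)) • w) u
      linarith
    have h2 : dist (((γ'⁻¹ * γ : Γ) : SL(2, ℝ)) • w) w < i0 := by
      have e : ((γ'⁻¹ * γ : Γ) : SL(2, ℝ)) • w = (γ' : SL(2, ℝ))⁻¹ • ((γ : SL(2, ℝ)) • w) := by
        rw [smul_smul]
        rfl
      have e2 : w = (γ' : SL(2, ℝ))⁻¹ • ((γ' : SL(2, ℝ)) • w) := by rw [inv_smul_smul]
      rw [e]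
      nth_rewrite 2 [e2]
      rw [dist_smul]
      exact h1
    have h3 := hinj _ _ h2
    rw [inv_mul_eq_one] at h3
    exact h3.symm
  have hsum := measureReal_biUnion_finset (μ := (volume : Measure ℍ)) hdisj (fun γ _ => Metric.isOpen_ball.measurableSet)
    (fun γ _ => (hfinb _ _).ne)
  have hsum2 : ∑ γ ∈ S, volume.real (Metric.ball ((γ : SL(2, ℝ)) • w) (i0 / 2)) = S.card * v0 := by
    rw [Finset.sum_congr rfl fun γ _ => hv _, Finset.sum_const, nsmul_eq_mul]
  have hsub : (⋃ γ ∈ S, Metric.ball (((γ : Γ) : SL(2, ℝ)) • w) (i0 / 2)) ⊆ Metric.ball z (D + 1) := by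
    intro u hu
    rw [Set.mem_iUnion₂] at hu
    obtain ⟨γ, hγ, hu⟩ := hu
    rw [hS, Set.Finite.mem_toFinset, Set.mem_ofPred_eq] at hγ
    rw [Metric.mem_ball] at hu ⊢
    have := dist_triangle u ((γ : SL(2, ℝ)) • w) z
    rw [dist_comm ((γ : SL(2, ℝ)) • w) z] at this
    linarith
  have hle : (S.card : ℝ) * v0 ≤ C * Real.exp (D + 1) := by
    rw [← hsum2, ← hsum]
    exact (measureReal_mono hsub (hfinb _ _).ne).trans (hball z (D + 1) (by linarith))
  rw [hSc, div_mul_eq_mul_div, le_div_iff₀ hv0p]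
  calc (S.card : ℝ) * v0 ≤ C * Real.exp (D + 1) := hle
    _ = C * Real.exp 1 * Real.exp D := by
      rw [Real.exp_add]
      ring

end Pool.Agent.RPQ
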